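import Mathlib

/-! The systems `x' = y`, `y' = -x³ + x y² + ε y (a + c x² + y²)`: definitions. -/

open Set Topology Filter MeasureTheory

namespace Pool.Agent.W960.HC

/-- the vector field -/
def fld (a c ε : ℝ) (p : ℝ × ℝ) : ℝ × ℝ :=
  (p.2, -p.1 ^ 3 + p.1 * p.2 ^ 2 + ε * (p.2 * (a + c * p.1 ^ 2 + p.2 ^ 2)))

/-- the first integral of the unperturbed system -/
noncomputable def kap (p : ℝ × ℝ) : ℝ := Real.exp (-p.1 ^ 2) * (1 + p.1 ^ 2 - p.2 ^ 2)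

/-- along solutions, `kap' = -2 ε G` -/
noncomputable def G (a c : ℝ) (p : ℝ × ℝ) : ℝ :=
  Real.exp (-p.1 ^ 2) * p.2 ^ 2 * (a + c * p.1 ^ 2 + p.2 ^ 2)

/-- value of `kap` at `(X, 0)` -/
noncomputable def kp (X : ℝ) : ℝ := Real.exp (-X ^ 2) * (1 + X ^ 2)

/-- the point of the positive `y`-axis on the level of `(X, 0)` is `(0, et X)` -/
noncomputable def et (X : ℝ) : ℝ := Real.sqrt (1 - kp X)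

/-- the upper arc of the level `κ` -/
noncomputable def Y (κ x : ℝ) : ℝ := Real.sqrt (1 + x ^ 2 - κ * Real.exp (x ^ 2))

/-- the Melnikov function of the quarter turn -/
noncomputable def Mel (a c X : ℝ) : ℝ :=
  ∫ x in (0:ℝ)..X, Real.exp (-x ^ 2) * Y (kp X) x * (a + c * x ^ 2 + Y (kp X) x ^ 2)

/-- closed orbits (ranges of nonconstant periodic solutions) -/
def Closed (V : ℝ × ℝ → ℝ × ℝ) : Set (Set (ℝ × ℝ)) :=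
  {D | ∃ γ : ℝ → ℝ × ℝ, ∃ T : ℝ, 0 < T ∧ (∀ t : ℝ, HasDerivAt γ (V (γ t)) t) ∧
    (∀ t : ℝ, γ (t + T) = γ t) ∧ (∃ t : ℝ, γ t ≠ γ 0) ∧ D = Set.range γ}

/-- limit cycles -/
def Cyc (V : ℝ × ℝ → ℝ × ℝ) : Set (Set (ℝ × ℝ)) :=
  {C | C ∈ Closed V ∧ ∃ U : Set (ℝ × ℝ), IsOpen U ∧ C ⊆ U ∧
    ∀ D ∈ Closed V, (D ∩ U).Nonempty → D = C}

/-- `Z`, `W` are a smooth flow of the field with an accumulator, valid in the ball of radius `R` -/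
structure Flw (a c R : ℝ) (Z : ℝ → ℝ × ℝ → ℝ → ℝ × ℝ) (W : ℝ → ℝ × ℝ → ℝ → ℝ) : Prop where
  smZ : ContDiff ℝ 2 (fun q : ℝ × (ℝ × ℝ) × ℝ => Z q.1 q.2.1 q.2.2)
  smW : ContDiff ℝ 2 (fun q : ℝ × (ℝ × ℝ) × ℝ => W q.1 q.2.1 q.2.2)
  zero : ∀ p ε, Z 0 p ε = p
  wzero : ∀ p ε, W 0 p ε = 0
  add : ∀ t s p ε, Z (t + s) p ε = Z t (Z s p ε) ε
  der : ∀ p ε t, ‖Z t p ε‖ < R → |ε| < 1 → HasDerivAt (fun t => Z t p ε) (fld a c ε (Z t p ε)) t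
  derW : ∀ p ε t, ‖Z t p ε‖ < R → |ε| < 1 → HasDerivAt (fun t => W t p ε) (G a c (Z t p ε)) t

/-- the half turn: `τ` is the first return time of `(0, et X)` to the `y`-axis, for `(X, ε)` near
`(X₀, 0)` -/
structure Half (a c R X₀ : ℝ) (Z : ℝ → ℝ × ℝ → ℝ → ℝ × ℝ) (W : ℝ → ℝ × ℝ → ℝ → ℝ)
    (τ : ℝ × ℝ → ℝ) (δ : ℝ) : Prop where
  hδ : 0 < δ
  hδ0 : δ < X₀
  hδ1 : δ < 1
  smooth : ContDiffOn ℝ 1 τ (Ioo (X₀ - δ) (X₀ + δ) ×ˢ Ioo (-δ) δ)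
  pos : ∀ X ∈ Ioo (X₀ - δ) (X₀ + δ), ∀ ε ∈ Ioo (-δ) δ, 0 < τ (X, ε)
  ball : ∀ X ∈ Ioo (X₀ - δ) (X₀ + δ), ∀ ε ∈ Ioo (-δ) δ, ∀ t ∈ Icc 0 (τ (X, ε)),
    ‖Z t (0, et X) ε‖ < R
  side : ∀ X ∈ Ioo (X₀ - δ) (X₀ + δ), ∀ ε ∈ Ioo (-δ) δ, ∀ t ∈ Ioo 0 (τ (X, ε)),
    0 < (Z t (0, et X) ε).1
  hit : ∀ X ∈ Ioo (X₀ - δ) (X₀ + δ), ∀ ε ∈ Ioo (-δ) δ, (Z (τ (X, ε)) (0, et X) ε).1 = 0
  neg : ∀ X ∈ Ioo (X₀ - δ) (X₀ + δ), ∀ ε ∈ Ioo (-δ) δ, (Z (τ (X, ε)) (0, et X) ε).2 < 0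
  mel : ∀ X ∈ Ioo (X₀ - δ) (X₀ + δ), W (τ (X, 0)) (0, et X) 0 = 2 * Mel a c X

end Pool.Agent.W960.HC
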